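import Pool.Agent.W206.YP.Stm

/-!
# Different polynomials in independent variables are not isogenous
-/

set_option autoImplicit false
set_option maxHeartbeats 1000000

namespace Pool.Agent.W975.YP.NI

open MvPolynomial Pool.Agent.W206.YP

variable {K : IntermediateField Qb ℂ} {V : Type}

/-- restriction to a line -/
noncomputable def pol (h : MvPolynomial V K) (p q : V → ℂ) : Polynomial ℂ :=
  aeval (fun v => Polynomial.C (p v) + Polynomial.C (q v) * Polynomial.X) h

theorem pol_eval (h : MvPolynomial V K) (p q : V → ℂ) (s : ℂ) :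
    (pol h p q).eval s = aeval (fun v => p v + q v * s) h := by
  unfold pol
  induction h using MvPolynomial.induction_on with
  | C a =>
    rw [algHom_C, algHom_C, Polynomial.algebraMap_apply, Polynomial.eval_C]
  | add f g hf hg => rw [map_add, map_add, Polynomial.eval_add, hf, hg]
  | mul_X f i hf =>
    rw [map_mul, map_mul, Polynomial.eval_mul, hf, aeval_X, aeval_X]
    simp

theorem exists_ne {f g : MvPolynomial V K} (hfg : f ≠ g) :
    ∃ p : V → ℂ, aeval p f ≠ aeval p g := by
  by_contra hcon
  push Not at hcon
  apply hfg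
  apply MvPolynomial.map_injective (algebraMap K ℂ) (algebraMap K ℂ).injective
  apply MvPolynomial.funext
  intro x
  rw [eval_map, eval_map]
  exact hcon x

theorem exists_line {f : MvPolynomial V K}
    (hf : f ∉ Set.range (C : K → MvPolynomial V K)) (p : V → ℂ) :
    ∃ q : V → ℂ, 0 < (pol f p q).natDegree := by
  by_contra hcon
  push Not at hcon
  have h1 : ∀ q : V → ℂ, aeval (fun v => p v + q v) f = aeval p f := by
    intro q
    have h2 : (pol f p q).natDegree = 0 := Nat.le_zero.1 (hcon q)
    have h3 := Polynomial.eq_C_of_natDegree_eq_zero h2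
    have h4 : (pol f p q).eval 1 = (pol f p q).eval 0 := by
      rw [h3, Polynomial.eval_C, Polynomial.eval_C]
    rw [pol_eval, pol_eval] at h4
    simpa using h4
  apply hf
  refine ⟨coeff 0 f, ?_⟩
  have h5 : MvPolynomial.map (algebraMap K ℂ) f = C (aeval p f) := by
    apply MvPolynomial.funext
    intro x
    rw [eval_map, eval_C]
    have h6 := h1 (fun v => x v - p v)
    have h7 : (fun v => p v + (x v - p v)) = x := by
      funext v; ring
    rw [h7] at h6
    exact h6
  apply MvPolynomial.map_injective (algebraMap K ℂ) (algebraMap K ℂ).injective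
  rw [map_C, h5]
  congr 1
  have h8 := congrArg (coeff 0) h5
  rw [coeff_map, coeff_zero_C] at h8
  exact h8

theorem main : S_P4 → S_PN → S_NI := by
  intro hP4 hPN K V _ t ht f g hfg hnc hiso
  obtain ⟨N, hN, hIso⟩ := hiso
  obtain ⟨F, _, hF⟩ := hPN N hN
  set P : MvPolynomial V K := aeval ![f, g] F with hP
  have hcomp : ∀ v : V → ℂ, aeval v P = aeval ![aeval v f, aeval v g] F := by
    intro v
    rw [hP]
    have h1 := MvPolynomial.comp_aeval_apply (f := ![f, g])
      (AlgHom.restrictScalars Qb (aeval v : MvPolynomial V K →ₐ[K] ℂ)) F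
    rw [AlgHom.restrictScalars_apply] at h1
    rw [h1]
    congr 2
    funext i
    fin_cases i <;> rfl
  have hPt : aeval t P = 0 := by
    rw [hcomp, hF]
    exact hIso
  have hP0 : P = 0 := by
    have h2 := (algebraicIndependent_iff.1 ht) P hPt
    exact h2
  have hall : ∀ v : V → ℂ, IsoN N (aeval v f) (aeval v g) := by
    intro v
    rw [← hF, ← hcomp, hP0, map_zero]
  obtain ⟨p, hp⟩ := exists_ne hfg
  have key : ∀ q : V → ℂ, 0 < (pol f p q).natDegree ∨ 0 < (pol g p q).natDegree → False := by
    intro q hq
    have h3 := hP4 N (pol f p q) (pol g p q) hN hq (by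
      intro s
      rw [pol_eval, pol_eval]
      exact hall _)
    apply hp
    have h4 := congrArg (Polynomial.eval 0) h3
    rw [pol_eval, pol_eval] at h4
    simpa using h4
  rcases hnc with h | h
  · obtain ⟨q, hq⟩ := exists_line h p
    exact key q (Or.inl hq)
  · obtain ⟨q, hq⟩ := exists_line h p
    exact key q (Or.inr hq)

end Pool.Agent.W975.YP.NI
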